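import Pool.Agent.P.MP_6e34ef_nt.NF.Ord

/-! Residue classes, squares at the infinite places and the number of small primes. -/

set_option autoImplicit false

namespace Pool.Agent.P.MP_6e34ef_nt.NF

open Finset NumberField IsDedekindDomain
open scoped nonZeroDivisors

variable {K : Type} [Field K] [NumberField K]

theorem ge_of_mem (v : Pr K) {x : 𝓞 K} {m : ℕ} (h : x ∈ v.asIdeal ^ m) : Ge v (x : K) m := by
  by_cases hx : (x : K) = 0
  · exact Or.inl hx
  refine Or.inr ?_
  have h1 : FractionalIdeal.spanSingleton (𝓞 K)⁰ (x : K) ≤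
      (v.asIdeal : FractionalIdeal (𝓞 K)⁰ K) ^ m := by
    rw [← FractionalIdeal.coeIdeal_pow, FractionalIdeal.spanSingleton_le_iff_mem]
    exact FractionalIdeal.mem_coeIdeal_of_mem _ h
  have := FractionalIdeal.count_mono K v (FractionalIdeal.spanSingleton_ne_zero_iff.2 hx) h1
  rw [FractionalIdeal.count_pow_self] at this
  exact_mod_cast this

theorem ord_of_notMem (v : Pr K) {x : 𝓞 K} (h : x ∉ v.asIdeal) : ord v (x : K) = 0 := by
  have hx : x ≠ 0 := fun h0 => h (h0 ▸ zero_mem _)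
  have h1 : v.intValuation x = 1 := HeightOneSpectrum.intValuation_eq_one_iff.2 h
  rw [val_eq_int v hx, ← WithZero.exp_zero, WithZero.exp_inj, neg_eq_zero] at h1
  exact h1

theorem exists_int {x : K} (h : ∀ v : Pr K, Ge v x 0) : ∃ z : 𝓞 K, (z : K) = x := by
  by_cases hx : x = 0
  · exact ⟨0, by simp [hx]⟩
  have h1 := le_of_count (FractionalIdeal.spanSingleton_ne_zero_iff.2 hx)
    (one_ne_zero (α := FractionalIdeal (𝓞 K)⁰ K)) fun v => by
      rw [FractionalIdeal.count_one]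
      exact_mod_cast (h v).le hx
  exact (FractionalIdeal.mem_one_iff _).1 (FractionalIdeal.spanSingleton_le_iff_mem.1 h1)

theorem exp_wt (v : Pr K) : Real.exp (wt v) = Ideal.absNorm v.asIdeal := by
  have h : 1 < Ideal.absNorm v.asIdeal := HeightOneSpectrum.one_lt_absNorm v
  exact Real.exp_log (by exact_mod_cast h.trans' one_pos)

/-- Colouring by residue classes. -/
theorem resid (S T : Finset (Pr K)) (hd : Disjoint S T) (a m : Pr K → ℕ) :
    ∃ (N : ℕ) (col : K → ℕ), (N : ℝ) ≤ Real.exp (∑ v ∈ T, (m v : ℝ) * wt v) ∧ (∀ y, col y < N) ∧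
      ∀ y y' : K, (∀ v ∈ S, Ge v y (-(a v : ℝ))) → (∀ v, v ∉ S → Ge v y 0) →
        (∀ v ∈ S, Ge v y' (-(a v : ℝ))) → (∀ v, v ∉ S → Ge v y' 0) → col y = col y' →
        ∀ v ∈ T, Ge v (y - y') (m v) := by
  classical
  set I : Ideal (𝓞 K) := ∏ v ∈ T, v.asIdeal ^ m v with hI
  have hI0 : I ≠ 0 := prod_ne_zero_iff.2 fun v _ => pow_ne_zero _ v.ne_bot
  have hfin : Finite (𝓞 K ⧸ I) :=
    (Ideal.absNorm_ne_zero_iff I).1 (by rwa [Ne, Ideal.absNorm_eq_zero_iff])
  have hcop : IsCoprime (∏ v ∈ S, v.asIdeal ^ a v) (∏ v ∈ T, v.asIdeal) :=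
    IsCoprime.prod_left fun v hv => IsCoprime.prod_right fun u hu =>
      (HeightOneSpectrum.isCoprime_of_ne v u fun h => disjoint_left.1 hd hv (h ▸ hu)).pow_left
  obtain ⟨d, hdS, e, heT, hde⟩ := Ideal.isCoprime_iff_exists.1 hcop
  have hint : ∀ y : K, (∀ v ∈ S, Ge v y (-(a v : ℝ))) → (∀ v, v ∉ S → Ge v y 0) →
      ∃ z : 𝓞 K, (z : K) = d * y := fun y h1 h2 => exists_int fun v => by
    by_cases hv : v ∈ S
    · have := (ge_of_mem v (Ideal.le_of_dvd (dvd_prod_of_mem _ hv) hdS)).mul (h1 v hv)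
      rwa [add_neg_cancel] at this
    · have h3 : Ge v (d : K) 0 := Or.inr (by exact_mod_cast ord_coe_nonneg v d)
      simpa using h3.mul (h2 v hv)
  let r : K → 𝓞 K := fun y => if h : ∃ z : 𝓞 K, (z : K) = d * y then h.choose else 0
  have hr : ∀ y : K, (∃ z : 𝓞 K, (z : K) = d * y) → (r y : K) = d * y := fun y h => by
    simp only [r, dif_pos h]
    exact h.choose_spec
  refine ⟨Nat.card (𝓞 K ⧸ I), fun y => Finite.equivFin _ (Ideal.Quotient.mk I (r y)), ?_,
    fun y => (Finite.equivFin _ _).2, fun y y' h1 h2 h3 h4 hc v hv => ?_⟩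
  · rw [← Submodule.cardQuot_apply, ← Ideal.absNorm_apply, hI, map_prod, Real.exp_sum]
    push_cast
    exact (prod_congr rfl fun v _ => by
      rw [Real.exp_nat_mul, exp_wt, map_pow, Nat.cast_pow]).le
  · have h5 := Ideal.Quotient.eq.1 ((Finite.equivFin _).injective (Fin.ext hc))
    have h6 := ge_of_mem v (Ideal.le_of_dvd (dvd_prod_of_mem _ hv) h5)
    have h7 : d ∉ v.asIdeal := fun h => v.isPrime.ne_top ((Ideal.eq_top_iff_one _).2 (by
      rw [← hde]
      exact add_mem h (Ideal.le_of_dvd (dvd_prod_of_mem _ hv) heT)))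
    have h8 : (d : K) ≠ 0 := by
      have : d ≠ 0 := fun h0 => h7 (h0 ▸ zero_mem _)
      exact_mod_cast this
    have h9 : Ge v (d : K)⁻¹ 0 := Or.inr (by rw [ord_inv, ord_of_notMem v h7]; simp)
    have h10 := h9.mul h6
    rw [zero_add, show ((r y - r y' : 𝓞 K) : K) = r y - r y' by simp, hr y (hint y h1 h2),
      hr y' (hint y' h3 h4), ← mul_sub, inv_mul_cancel_left₀ h8] at h10
    exact h10

/-- Colouring of a real interval. -/
theorem resid_line (t u : ℝ) (hu : 0 ≤ u) :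
    ∃ (N : ℕ) (col : ℝ → Fin N), (N : ℝ) ≤ Real.exp (u + 2) ∧ ∀ y y' : ℝ, |y| ≤ Real.exp t →
      |y'| ≤ Real.exp t → col y = col y' → |y - y'| ≤ Real.exp (t - u) / 2 := by
  set ρ := Real.exp (t - u) / 2 with hρ
  have hρ0 : 0 < ρ := by positivity
  have h1 : 1 ≤ Real.exp u := Real.one_le_exp hu
  have h2 : Real.exp t = 2 * Real.exp u * ρ := by
    rw [hρ, Real.exp_sub]; field_simp
  have hlt : ∀ y : ℝ, |y| ≤ Real.exp t → ⌊(y + Real.exp t) / ρ⌋₊ < ⌊4 * Real.exp u⌋₊ + 1 :=
    fun y hy => Nat.lt_succ_of_le (Nat.floor_le_floor (by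
      rw [div_le_iff₀ hρ0]
      linarith [(abs_le.1 hy).2]))
  refine ⟨⌊4 * Real.exp u⌋₊ + 1, fun y => Fin.ofNat _ ⌊(y + Real.exp t) / ρ⌋₊, ?_,
    fun y y' hy hy' hc => ?_⟩
  · have h3 := Nat.floor_le (show 0 ≤ 4 * Real.exp u by positivity)
    have h4 : Real.exp 2 = Real.exp 1 * Real.exp 1 := by rw [← Real.exp_add]; norm_num
    push_cast
    rw [Real.exp_add, h4]
    nlinarith [Real.exp_one_gt_d9, mul_self_nonneg (Real.exp 1 - 2.7)]
  · have h3 := congrArg Fin.val hc
    simp only [Fin.val_ofNat] at h3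
    rw [Nat.mod_eq_of_lt (hlt y hy), Nat.mod_eq_of_lt (hlt y' hy')] at h3
    have p1 : 0 ≤ (y + Real.exp t) / ρ := div_nonneg (by linarith [(abs_le.1 hy).1]) hρ0.le
    have p2 : 0 ≤ (y' + Real.exp t) / ρ := div_nonneg (by linarith [(abs_le.1 hy').1]) hρ0.le
    have q1 := Nat.floor_le p1
    have q2 := Nat.floor_le p2
    have q3 := Nat.lt_floor_add_one ((y + Real.exp t) / ρ)
    have q4 := Nat.lt_floor_add_one ((y' + Real.exp t) / ρ)
    rw [h3] at q1 q3
    rw [le_div_iff₀ hρ0] at q1 q2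
    rw [div_lt_iff₀ hρ0] at q3 q4
    rw [abs_le]
    constructor <;> nlinarith

theorem resid_place (w : InfinitePlace K) (t u : ℝ) (hu : 0 ≤ u) :
    ∃ (N : ℕ) (col : K → Fin N), (N : ℝ) ≤ Real.exp (mu w * (u + 2)) ∧ ∀ y y' : K,
      w y ≤ Real.exp t → w y' ≤ Real.exp t → col y = col y' → w (y - y') ≤ Real.exp (t - u) := by
  obtain ⟨N, col, hN, hc⟩ := resid_line t u hu
  have hre : ∀ y : K, w y ≤ Real.exp t → |(w.embedding y).re| ≤ Real.exp t := fun y hy =>
    (Complex.abs_re_le_norm _).trans ((w.norm_embedding_eq y).trans_le hy)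
  have him : ∀ y : K, w y ≤ Real.exp t → |(w.embedding y).im| ≤ Real.exp t := fun y hy =>
    (Complex.abs_im_le_norm _).trans ((w.norm_embedding_eq y).trans_le hy)
  have hb : ∀ y y' : K, w (y - y') ≤ |(w.embedding y).re - (w.embedding y').re| +
      |(w.embedding y).im - (w.embedding y').im| := fun y y' => by
    rw [← w.norm_embedding_eq, map_sub, ← Complex.sub_re, ← Complex.sub_im]
    exact Complex.norm_le_abs_re_add_abs_im _
  by_cases hw : w.IsReal
  · refine ⟨N, fun y => col (w.embedding y).re, by rwa [mu, hw.mult_eq_one, Nat.cast_one, one_mul],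
      fun y y' hy hy' h => (hb y y').trans ?_⟩
    have h0 : ∀ z : K, (w.embedding z).im = 0 := fun z => by
      rw [← InfinitePlace.embedding_of_isReal_apply hw, Complex.ofReal_im]
    rw [h0, h0, sub_self, abs_zero]
    linarith [hc _ _ (hre y hy) (hre y' hy') h, Real.exp_pos (t - u)]
  · refine ⟨N * N, fun y => finProdFinEquiv (col (w.embedding y).re, col (w.embedding y).im), ?_,
      fun y y' hy hy' h => (hb y y').trans ?_⟩
    · rw [mu, InfinitePlace.mult, if_neg hw, Nat.cast_ofNat, two_mul, Real.exp_add, Nat.cast_mul]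
      exact mul_le_mul hN hN (Nat.cast_nonneg _) (Real.exp_pos _).le
    · have h1 := Prod.ext_iff.1 (finProdFinEquiv.injective h)
      linarith [hc _ _ (hre y hy) (hre y' hy') h1.1, hc _ _ (him y hy) (him y' hy') h1.2]

/-- Colouring by small squares at the infinite places in `A`. -/
theorem squares (A : Finset (InfinitePlace K)) (t u : InfinitePlace K → ℝ) (hu : ∀ w ∈ A, 0 ≤ u w) :
    ∃ (N : ℕ) (col : K → ℕ), (N : ℝ) ≤ Real.exp (∑ w ∈ A, mu w * u w + 2 * dg K) ∧
      (∀ y, col y < N) ∧ ∀ y y' : K, (∀ w ∈ A, w y ≤ Real.exp (t w)) →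
        (∀ w ∈ A, w y' ≤ Real.exp (t w)) → col y = col y' →
        ∀ w ∈ A, w (y - y') ≤ Real.exp (t w - u w) := by
  classical
  choose N col hN hc using fun w : A => resid_place (w : InfinitePlace K) (t w) (u w) (hu w w.2)
  refine ⟨Fintype.card ((w : A) → Fin (N w)),
    fun y => Fintype.equivFin ((w : A) → Fin (N w)) fun w => col w y, ?_,
    fun y => (Fintype.equivFin _ _).2, fun y y' hy hy' h w hw => ?_⟩
  · rw [Fintype.card_pi]
    simp only [Fintype.card_fin]
    push_cast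
    refine (prod_le_prod (fun _ _ => Nat.cast_nonneg _) fun w _ => hN w).trans ?_
    rw [← Real.exp_sum, Real.exp_le_exp, sum_coe_sort A fun w => mu w * (u w + 2), ← sum_mu]
    simp only [mul_add, sum_add_distrib, ← sum_mul]
    have : ∑ w ∈ A, mu w ≤ ∑ w, mu w := sum_le_sum_of_subset_of_nonneg (subset_univ _)
      fun w _ _ => zero_le_one.trans (one_le_mu w)
    linarith
  · exact hc ⟨w, hw⟩ y y' (hy w hw) (hy' w hw)
      (congrFun ((Fintype.equivFin _).injective (Fin.ext h)) ⟨w, hw⟩)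

theorem card_norm_le (S : Finset (Pr K)) (N : ℕ) (h : ∀ v ∈ S, Ideal.absNorm v.asIdeal = N) :
    S.card ≤ Module.finrank ℚ K := by
  rcases S.eq_empty_or_nonempty with rfl | ⟨v0, hv0⟩
  · simp
  have h1 : 1 < N := h v0 hv0 ▸ HeightOneSpectrum.one_lt_absNorm v0
  have h2 : 0 < Real.log N := Real.log_pos (by exact_mod_cast h1)
  have h3 := liouville (x := (N : K)) (by exact_mod_cast h1.ne_bot) S (fun _ => 1)
    (fun _ => Real.log N) (fun v hv => by
      have := ge_of_mem v (m := 1) (x := (N : 𝓞 K)) (by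
        rw [pow_one, ← h v hv]; exact Ideal.absNorm_mem _)
      simpa using this) (fun v _ => Ge.natCast v N) fun w => by
      rw [la, ← w.norm_embedding_eq]; simp
  rw [← sum_mul, sum_mu, sum_congr rfl (g := fun _ => Real.log N) fun v hv => by
    rw [one_mul, wt, h v hv], sum_const, nsmul_eq_mul] at h3
  have := le_of_mul_le_mul_right h3 h2
  unfold dg at this
  exact_mod_cast this

theorem card_le (c ε : ℝ) (hc : 0 ≤ c) (hε : 0 < ε) :
    ∃ C : ℝ, 0 ≤ C ∧ ∀ (K : Type) [Field K] [NumberField K] (S : Finset (Pr K)),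
      S.card * c ≤ C * dg K + ε * ∑ v ∈ S, wt v := by
  refine ⟨⌈Real.exp (c / ε)⌉₊ * c, by positivity, fun K _ _ S => ?_⟩
  classical
  have h1 : (S.filter fun v => wt v < c / ε).card ≤
      Module.finrank ℚ K * (range ⌈Real.exp (c / ε)⌉₊).card :=
    card_le_mul_card_image_of_maps_to (f := fun v : Pr K => Ideal.absNorm v.asIdeal)
      (fun v hv => mem_range.2 (Nat.lt_ceil.2 (by
        rw [← exp_wt]; exact Real.exp_lt_exp.2 (mem_filter.1 hv).2))) _
      fun N _ => card_norm_le _ N fun v hv => (mem_filter.1 hv).2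
  rw [card_range] at h1
  have h2 : ((S.filter fun v => wt v < c / ε).card : ℝ) ≤ dg K * ⌈Real.exp (c / ε)⌉₊ := by
    unfold dg; exact_mod_cast h1
  have h3 : ((S.filter fun v => ¬wt v < c / ε).card : ℝ) * c ≤ ε * ∑ v ∈ S, wt v := by
    refine le_trans ?_ (mul_le_mul_of_nonneg_left (sum_le_sum_of_subset_of_nonneg
      (filter_subset (fun v => ¬wt v < c / ε) S) fun v _ _ => (wt_pos v).le) hε.le)
    rw [mul_sum, ← nsmul_eq_mul]
    refine card_nsmul_le_sum _ _ _ fun v hv => ?_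
    have := not_lt.1 (mem_filter.1 hv).2
    rwa [div_le_iff₀' hε] at this
  rw [← card_filter_add_card_filter_not (s := S) fun v => wt v < c / ε]
  push_cast
  nlinarith

end Pool.Agent.P.MP_6e34ef_nt.NF
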