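import Pool.Agent.P.MP_6e34ef_nt.NF.Ord

/-! Many points of a fractional ideal in a box. -/

set_option autoImplicit false

namespace Pool.Agent.P.MP_6e34ef_nt.NF

open Finset NumberField IsDedekindDomain
open scoped nonZeroDivisors

variable {K : Type} [Field K] [NumberField K]

open MeasureTheory in
/-- The theorem of Blichfeldt with many points. -/
theorem many_blich {E : Type*} [NormedAddCommGroup E] [NormedSpace ℝ E] [MeasurableSpace E]
    [BorelSpace E] [FiniteDimensional ℝ E] {μ : Measure E} [μ.IsAddHaarMeasure]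
    {L : AddSubgroup E} [Countable L] {F s : Set E} (fund : IsAddFundamentalDomain L F μ)
    (hs : MeasurableSet s) (M : ℕ) (h : M * μ F < μ s) :
    ∃ (x : E) (Y : Finset L), Y.card = M + 1 ∧ ∀ g ∈ Y, (g : E) + x ∈ s := by
  classical
  by_contra hc
  push Not at hc
  have h1 : μ s = ∑' g : L, ∫⁻ x in F, s.indicator 1 (g +ᵥ x) ∂μ := by
    rw [← fund.lintegral_eq_tsum'', lintegral_indicator_one hs]
  rw [← lintegral_tsum (f := fun (g : L) x => s.indicator (1 : E → ENNReal) (g +ᵥ x))
    fun g => ((measurable_one.indicator hs).comp (measurable_const_vadd g)).aemeasurable] at h1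
  have h2 : ∀ x, ∑' g : L, s.indicator (1 : E → ENNReal) (g +ᵥ x) ≤ M := fun x => by
    rw [ENNReal.tsum_eq_iSup_sum]
    refine iSup_le fun t => ?_
    have e : ∑ g ∈ t, s.indicator (1 : E → ENNReal) (g +ᵥ x) =
        ((t.filter fun g : L => (g : E) + x ∈ s).card : ENNReal) := by
      rw [card_filter, Nat.cast_sum]
      refine sum_congr rfl fun g _ => ?_
      rw [Set.indicator_apply, AddSubgroup.vadd_def, vadd_eq_add]
      split_ifs <;> simp
    rw [e, Nat.cast_le]
    by_contra h3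
    obtain ⟨Y, hY, hcard⟩ := exists_subset_card_eq (Nat.succ_le_of_lt (not_le.1 h3))
    obtain ⟨g, hg, hg'⟩ := hc x Y hcard
    exact hg' (mem_filter.1 (hY hg)).2
  have h3 : μ s ≤ M * μ F := by
    rw [h1, ← setLIntegral_const]
    exact lintegral_mono fun x => h2 x
  exact absurd h (not_lt.2 h3)

open mixedEmbedding in
theorem many_ideal (I : (FractionalIdeal (𝓞 K)⁰ K)ˣ) (f : InfinitePlace K → NNReal) (M : ℕ)
    (h : (M : ℝ) * ((FractionalIdeal.absNorm I.1 : ℚ) : ℝ) * √|(discr K : ℝ)| <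
      ∏ w : InfinitePlace K, (f w : ℝ) ^ w.mult) :
    ∃ Y : Finset K, Y.card = M ∧ ∀ y ∈ Y, y ≠ 0 ∧ y ∈ (I : FractionalIdeal (𝓞 K)⁰ K) ∧
      ∀ w : InfinitePlace K, w y ≤ 2 * f w := by
  classical
  have h_fund := ZSpan.isAddFundamentalDomain' (fractionalIdealLatticeBasis K I)
    MeasureTheory.volume
  have : Countable (Submodule.span ℤ
      (Set.range (fractionalIdealLatticeBasis K I))).toAddSubgroup := by
    change Countable (Submodule.span ℤ (Set.range (fractionalIdealLatticeBasis K I)))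
    infer_instance
  have hm : MeasurableSet (convexBodyLT K f) :=
    (MeasurableSet.univ_pi fun _ => measurableSet_ball).prod
      (MeasurableSet.univ_pi fun _ => measurableSet_ball)
  have hN : (0 : ℝ) ≤ ((FractionalIdeal.absNorm I.1 : ℚ) : ℝ) := by
    exact_mod_cast FractionalIdeal.absNorm_nonneg I.1
  obtain ⟨x, Y, hY, hx⟩ := many_blich h_fund hm M (by
    rw [volume_fundamentalDomain_fractionalIdealLatticeBasis,
      volume_fundamentalDomain_latticeBasis, convexBodyLT_volume]
    calc (M : ENNReal) * (ENNReal.ofReal ((FractionalIdeal.absNorm I.1 : ℚ) : ℝ) *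
          (2⁻¹ ^ InfinitePlace.nrComplexPlaces K * (NNReal.sqrt ‖discr K‖₊ : NNReal)))
        ≤ (M : ENNReal) * (ENNReal.ofReal ((FractionalIdeal.absNorm I.1 : ℚ) : ℝ) *
          (1 * (NNReal.sqrt ‖discr K‖₊ : NNReal))) := by
          gcongr
          exact pow_le_one₀ zero_le (by norm_num)
      _ = ENNReal.ofReal ((M : ℝ) * ((FractionalIdeal.absNorm I.1 : ℚ) : ℝ) *
          √|(discr K : ℝ)|) := by
          rw [one_mul, mul_assoc, ENNReal.ofReal_mul (Nat.cast_nonneg _), ENNReal.ofReal_mul hN,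
            ENNReal.ofReal_natCast, ← ENNReal.ofReal_coe_nnreal, Real.coe_sqrt, coe_nnnorm,
            Int.norm_eq_abs]
      _ < ((∏ w : InfinitePlace K, f w ^ w.mult : NNReal) : ENNReal) := by
          rw [← ENNReal.ofReal_coe_nnreal, ENNReal.ofReal_lt_ofReal_iff_of_nonneg (by positivity)]
          push_cast
          exact h
      _ ≤ _ := by
          refine le_mul_of_one_le_left zero_le ?_
          exact ENNReal.one_le_coe_iff.2 (one_le_convexBodyLTFactor K))
  obtain ⟨g0, hg0⟩ := card_pos.1 (hY ▸ Nat.succ_pos M : 0 < Y.card)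
  have hex : ∀ g : (Submodule.span ℤ
      (Set.range (fractionalIdealLatticeBasis K I))).toAddSubgroup,
      ∃ a ∈ (I : FractionalIdeal (𝓞 K)⁰ K), mixedEmbedding K a = (g : mixedSpace K) - g0 :=
    fun g => (mem_span_fractionalIdealLatticeBasis K I).1 (g - g0).2
  choose p hp hp' using hex
  have hinj : Function.Injective p := fun g g' e => by
    have := hp' g
    rw [e, hp' g', sub_left_inj] at this
    exact (Subtype.ext this).symm
  refine ⟨(Y.erase g0).image p, by
    rw [card_image_of_injective _ hinj, card_erase_of_mem hg0, hY, Nat.add_sub_cancel],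
    fun y hy => ?_⟩
  obtain ⟨g, hg, rfl⟩ := mem_image.1 hy
  refine ⟨fun h0 => ?_, hp g, fun w => ?_⟩
  · have := hp' g
    rw [h0, map_zero, eq_comm, sub_eq_zero] at this
    exact ne_of_mem_erase hg (Subtype.ext this)
  · have h1 := hx g (mem_of_mem_erase hg)
    have h2 := hx g0 hg0
    have h3 : mixedEmbedding K (p g) ∈ convexBodyLT K fun w => 2 * f w := by
      rw [hp', ← add_sub_add_right_eq_sub _ _ x]
      refine ⟨fun w _ => ?_, fun w _ => ?_⟩
      · have a1 := mem_ball_zero_iff.1 (h1.1 w (Set.mem_univ _))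
        have a2 := mem_ball_zero_iff.1 (h2.1 w (Set.mem_univ _))
        refine mem_ball_zero_iff.2 ((norm_sub_le _ _).trans_lt ?_)
        push_cast
        linarith
      · have a1 := mem_ball_zero_iff.1 (h1.2 w (Set.mem_univ _))
        have a2 := mem_ball_zero_iff.1 (h2.2 w (Set.mem_univ _))
        refine mem_ball_zero_iff.2 ((norm_sub_le _ _).trans_lt ?_)
        push_cast
        linarith
    have := (convexBodyLT_mem K _).1 h3 w
    push_cast at this
    exact this.le

theorem count_prod_zpow (S : Finset (Pr K)) (a : Pr K → ℤ) (v : Pr K) [Decidable (v ∈ S)] :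
    FractionalIdeal.count K v (∏ u ∈ S, (u.asIdeal : FractionalIdeal (𝓞 K)⁰ K) ^ a u) =
      if v ∈ S then a v else 0 := by
  classical
  rw [FractionalIdeal.count_prod K v S _ fun u _ =>
    zpow_ne_zero _ (FractionalIdeal.coeIdeal_ne_zero.2 u.ne_bot)]
  simp only [FractionalIdeal.count_zpow, FractionalIdeal.count_maximal, mul_ite, mul_one, mul_zero,
    sum_ite_eq']
  congr

theorem many (S : Finset (Pr K)) (a : Pr K → ℤ) (f : InfinitePlace K → ℝ) (M : ℕ) (hM : 1 ≤ M)
    (h : dg K + lD K / 2 + Real.log M + ∑ v ∈ S, (a v : ℝ) * wt v ≤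
      ∑ w : InfinitePlace K, mu w * f w) :
    ∃ Y : Finset K, Y.card = M ∧ ∀ y ∈ Y, y ≠ 0 ∧ (∀ v ∈ S, a v ≤ ord v y) ∧
      (∀ v, v ∉ S → 0 ≤ ord v y) ∧ ∀ w, la w y ≤ f w := by
  classical
  set I := ∏ u ∈ S, (u.asIdeal : FractionalIdeal (𝓞 K)⁰ K) ^ a u with hI
  have hI0 : I ≠ 0 := prod_ne_zero_iff.2 fun u _ =>
    zpow_ne_zero _ (FractionalIdeal.coeIdeal_ne_zero.2 u.ne_bot)
  have hlog := log_absNorm hI0 S fun v hv => by rw [hI, count_prod_zpow, if_neg hv]
  rw [sum_congr rfl (g := fun v => (a v : ℝ) * wt v) fun v hv => by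
    rw [hI, count_prod_zpow, if_pos hv]] at hlog
  have hN : (0 : ℝ) < ((FractionalIdeal.absNorm I : ℚ) : ℝ) := by
    have h1 := FractionalIdeal.absNorm_nonneg I
    have h2 : FractionalIdeal.absNorm I ≠ 0 := fun h => hI0 (FractionalIdeal.absNorm_eq_zero_iff.1 h)
    exact_mod_cast lt_of_le_of_ne h1 h2.symm
  have hD : (0 : ℝ) < |(discr K : ℝ)| := abs_pos.2 (by exact_mod_cast discr_ne_zero K)
  have hM' : (0 : ℝ) < M := by exact_mod_cast hM
  obtain ⟨Y, hY, hy⟩ := many_ideal (Units.mk0 I hI0)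
    (fun w => ⟨Real.exp (f w) / 2, by positivity⟩) M (by
      have e1 : (M : ℝ) * ((FractionalIdeal.absNorm I : ℚ) : ℝ) * √|(discr K : ℝ)| =
          Real.exp (lD K / 2 + Real.log M + ∑ v ∈ S, (a v : ℝ) * wt v) := by
        rw [← hlog, Real.exp_add, Real.exp_add, Real.exp_log hM', Real.exp_log hN, lD,
          ← Real.log_sqrt hD.le, Real.exp_log (Real.sqrt_pos.2 hD)]
        ring
      have e2 : ∏ w : InfinitePlace K, (Real.exp (f w) / 2) ^ w.mult =
          Real.exp (∑ w : InfinitePlace K, mu w * f w - dg K * Real.log 2) := by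
        rw [← sum_mu, sum_mul, ← sum_sub_distrib, Real.exp_sum]
        refine prod_congr rfl fun w _ => ?_
        rw [← mul_sub, mu, Real.exp_nat_mul, Real.exp_sub, Real.exp_log two_pos]
      change (M : ℝ) * ((FractionalIdeal.absNorm I : ℚ) : ℝ) * _ <
        ∏ w : InfinitePlace K, (Real.exp (f w) / 2) ^ w.mult
      rw [e1, e2, Real.exp_lt_exp]
      nlinarith [one_le_dg (K := K), Real.log_two_lt_d9])
  refine ⟨Y, hY, fun y hy' => ?_⟩
  obtain ⟨h0, h1, h2⟩ := hy y hy'
  have h3 : ∀ v, FractionalIdeal.count K v I ≤ ord v y := fun v =>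
    FractionalIdeal.count_mono K v (FractionalIdeal.spanSingleton_ne_zero_iff.2 h0)
      (FractionalIdeal.spanSingleton_le_iff_mem.2 h1)
  refine ⟨h0, fun v hv => ?_, fun v hv => ?_, fun w => ?_⟩
  · have := h3 v
    rwa [hI, count_prod_zpow, if_pos hv] at this
  · have := h3 v
    rwa [hI, count_prod_zpow, if_neg hv] at this
  · refine (Real.log_le_iff_le_exp (InfinitePlace.pos_iff.2 h0)).2 ((h2 w).trans_eq ?_)
    change 2 * (Real.exp (f w) / 2) = _
    ring

end Pool.Agent.P.MP_6e34ef_nt.NF
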