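import Pool.Agent.P.MP_6e34ef_nt.NF.Ord

/-! The height and the conductor of the problem. -/

set_option autoImplicit false

namespace Pool.Agent.P.MP_6e34ef_nt.NF

open Finset NumberField IsDedekindDomain
open scoped nonZeroDivisors

variable {K : Type} [Field K] [NumberField K]

/-- The height `H (a, b, c)`. -/
noncomputable def Hgt (a b c : K) : ℝ :=
  (((FractionalIdeal.absNorm
      (FractionalIdeal.spanSingleton (nonZeroDivisors (𝓞 K)) a
        + FractionalIdeal.spanSingleton (nonZeroDivisors (𝓞 K)) b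
        + FractionalIdeal.spanSingleton (nonZeroDivisors (𝓞 K)) c) : ℚ) : ℝ)⁻¹
    * ∏ᶠ τ : K →+* ℂ, max (max ‖τ a‖ ‖τ b‖) ‖τ c‖) ^ ((1 : ℝ) / (Module.finrank ℚ K : ℝ))

open Classical in
/-- The conductor `N (a, b, c)`. -/
noncomputable def Cond (a b c : K) : ℝ :=
  (∏ᶠ v : HeightOneSpectrum (𝓞 K),
    if v.valuation K a = v.valuation K b ∧ v.valuation K b = v.valuation K c
    then (1 : ℝ) else (Ideal.absNorm v.asIdeal : ℝ)) ^ ((1 : ℝ) / (Module.finrank ℚ K : ℝ))

/-- The root discriminant. -/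
noncomputable def rd (K : Type) [Field K] [NumberField K] : ℝ :=
  |(discr K : ℝ)| ^ ((1 : ℝ) / (Module.finrank ℚ K : ℝ))

theorem log_rd : dg K * Real.log (rd K) = lD K := by
  have hD : (0 : ℝ) < |(discr K : ℝ)| := abs_pos.2 (by exact_mod_cast discr_ne_zero K)
  have h1 := one_le_dg (K := K)
  unfold dg at h1
  rw [rd, Real.log_rpow hD, dg, lD]
  field_simp

theorem one_le_rd : 1 ≤ rd K := by
  refine Real.one_le_rpow ?_ (by positivity)
  exact_mod_cast Int.one_le_abs (discr_ne_zero K)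

theorem one_le_absNorm (v : Pr K) : (1 : ℝ) ≤ Ideal.absNorm v.asIdeal := by
  exact_mod_cast (HeightOneSpectrum.one_lt_absNorm v).le

theorem one_le_Cond (a b c : K) : 1 ≤ Cond a b c := by
  refine Real.one_le_rpow ?_ (by positivity)
  refine finprod_induction (fun r : ℝ => 1 ≤ r) le_rfl (fun _ _ => one_le_mul_of_one_le_of_one_le)
    fun v => ?_
  split_ifs
  · exact le_rfl
  · exact one_le_absNorm v

theorem count_add_ge (v : Pr K) {I J : FractionalIdeal (𝓞 K)⁰ K} (hI : I ≠ 0) (hJ : J ≠ 0)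
    {g : ℤ} (h1 : g ≤ FractionalIdeal.count K v I) (h2 : g ≤ FractionalIdeal.count K v J) :
    I + J ≠ 0 ∧ g ≤ FractionalIdeal.count K v (I + J) := by
  classical
  have a1 : I ≤ I + J := le_sup_left
  have a2 : J ≤ I + J := le_sup_right
  have h0 : I + J ≠ 0 := fun h => hI (FractionalIdeal.le_zero_iff.1 (a1.trans_eq h))
  have hv : (v.asIdeal : FractionalIdeal (𝓞 K)⁰ K) ^ (g - FractionalIdeal.count K v (I + J)) ≠ 0 :=
    zpow_ne_zero _ (FractionalIdeal.coeIdeal_ne_zero.2 v.ne_bot)
  have hc : ∀ u : Pr K, FractionalIdeal.count K u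
      ((I + J) * (v.asIdeal : FractionalIdeal (𝓞 K)⁰ K) ^ (g - FractionalIdeal.count K v (I + J))) =
      if v = u then g else FractionalIdeal.count K u (I + J) := fun u => by
    rw [FractionalIdeal.count_mul K u h0 hv, FractionalIdeal.count_zpow,
      FractionalIdeal.count_maximal]
    split_ifs with h
    · rw [h]; ring
    · ring
  have key : ∀ L : FractionalIdeal (𝓞 K)⁰ K, L ≠ 0 → L ≤ I + J → g ≤ FractionalIdeal.count K v L →
      L ≤ (I + J) * (v.asIdeal : FractionalIdeal (𝓞 K)⁰ K) ^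
        (g - FractionalIdeal.count K v (I + J)) := fun L hL a b =>
    le_of_count hL (mul_ne_zero h0 hv) fun u => by
      rw [hc]
      split_ifs with h
      · exact h ▸ b
      · exact FractionalIdeal.count_mono K u hL a
  have := FractionalIdeal.count_mono K v h0 (sup_le (key I hI a1 h1) (key J hJ a2 h2))
  rw [hc, if_pos rfl] at this
  exact ⟨h0, this⟩

theorem sum_emb (f : InfinitePlace K → ℝ) :
    ∑ τ : K →+* ℂ, f (InfinitePlace.mk τ) = ∑ w : InfinitePlace K, mu w * f w := by
  classical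
  rw [← sum_fiberwise univ (fun τ : K →+* ℂ => InfinitePlace.mk τ)]
  refine sum_congr rfl fun w _ => ?_
  rw [sum_congr rfl (g := fun _ => f w) fun τ hτ => by rw [(mem_filter.1 hτ).2], sum_const,
    InfinitePlace.card_filter_mk_eq, nsmul_eq_mul, mu]

theorem log_Cond {a b c : K} (ha : a ≠ 0) (hb : b ≠ 0) (hc : c ≠ 0) (U : Finset (Pr K))
    (hU : ∀ v, v ∈ U ↔ ¬(ord v a = ord v b ∧ ord v b = ord v c)) :
    dg K * Real.log (Cond a b c) = ∑ v ∈ U, wt v := by
  classical
  have e : ∀ v : Pr K, (v.valuation K a = v.valuation K b ∧ v.valuation K b = v.valuation K c) ↔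
      v ∉ U := fun v => by
    rw [hU, not_not, val_eq v ha, val_eq v hb, val_eq v hc, WithZero.exp_inj, WithZero.exp_inj,
      neg_inj, neg_inj]
  have h1 := one_le_dg (K := K)
  unfold dg at h1
  rw [Cond, finprod_eq_prod_of_mulSupport_subset (s := U) _ fun v hv => by
    by_contra h
    exact hv (if_pos ((e v).2 h)),
    prod_congr rfl (g := fun v => (Ideal.absNorm v.asIdeal : ℝ)) fun v hv =>
      if_neg fun h => (e v).1 h hv,
    Real.log_rpow (prod_pos fun v _ => one_pos.trans_le (one_le_absNorm v)),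
    Real.log_prod fun v _ => (one_pos.trans_le (one_le_absNorm v)).ne', dg]
  unfold wt
  field_simp

/-- Reduction to one element `x` with `x ≠ 0, 1`. -/
theorem bridge {a b c : K} (ha : a ≠ 0) (hb : b ≠ 0) (hc : c ≠ 0) (h : a + b + c = 0) :
    ∃ (x : K) (S T : Finset (Pr K)), x ≠ 0 ∧ x ≠ 1 ∧ (∀ v, v ∉ S → ord v x = 0) ∧ Disjoint S T ∧
      (∀ v, v ∉ T → ord v (x - 1) ≤ 0) ∧
      ∑ v ∈ S, wt v + ∑ v ∈ T, wt v ≤ dg K * Real.log (Cond a b c) ∧
      dg K * Real.log (Hgt a b c) ≤ ht S x + dg K := by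
  classical
  obtain ⟨Sa, hSa⟩ := exists_supp a
  obtain ⟨Sb, hSb⟩ := exists_supp b
  obtain ⟨Sc, hSc⟩ := exists_supp c
  set W := Sa ∪ Sb ∪ Sc with hW
  have hW0 : ∀ v, v ∉ W → ord v a = 0 ∧ ord v b = 0 ∧ ord v c = 0 := fun v hv =>
    ⟨hSa v fun h => hv (by simp [hW, h]), hSb v fun h => hv (by simp [hW, h]),
      hSc v fun h => hv (by simp [hW, h])⟩
  have hx0 : -a / c ≠ 0 := div_ne_zero (neg_ne_zero.2 ha) hc
  have hx1 : -a / c - 1 = b / c := by
    field_simp
    linear_combination -h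
  have hox : ∀ v, ord v (-a / c) = ord v a - ord v c := fun v => by
    rw [ord_div v (neg_ne_zero.2 ha) hc, ord_neg]
  have hab : ∀ v, ord v c < ord v b → ord v a = ord v c := fun v hv => by
    rw [← ord_add_of_lt v hc hb hv, ← ord_neg v a]
    congr 1
    linear_combination -h
  have hmin : ∀ v, min (ord v a) (ord v c) ≤ ord v b := fun v => by
    have e : a + c = -b := by linear_combination h
    have := ord_add v ha hc (e ▸ neg_ne_zero.2 hb)
    rwa [e, ord_neg] at this
  have hS : ∀ v, v ∉ W.filter (fun v => ord v a ≠ ord v c) → ord v (-a / c) = 0 := fun v hv => by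
    rw [hox]
    by_cases h1 : v ∈ W
    · exact sub_eq_zero.2 (by_contra fun h2 => hv (mem_filter.2 ⟨h1, h2⟩))
    · rw [(hW0 v h1).1, (hW0 v h1).2.2, sub_self]
  have hd : Disjoint (W.filter fun v => ord v a ≠ ord v c) (W.filter fun v => ord v c < ord v b) :=
    disjoint_left.2 fun v h1 h2 => (mem_filter.1 h1).2 (hab v (mem_filter.1 h2).2)
  refine ⟨-a / c, W.filter (fun v => ord v a ≠ ord v c), W.filter (fun v => ord v c < ord v b),
    hx0, fun h1 => div_ne_zero hb hc (by rw [← hx1, h1, sub_self]), hS, hd, fun v hv => ?_, ?_, ?_⟩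
  · rw [hx1, ord_div v hb hc]
    by_cases h1 : v ∈ W
    · exact sub_nonpos.2 (not_lt.1 fun h2 => hv (mem_filter.2 ⟨h1, h2⟩))
    · rw [(hW0 v h1).2.1, (hW0 v h1).2.2, sub_self]
  · rw [log_Cond ha hb hc (W.filter fun v => ¬(ord v a = ord v b ∧ ord v b = ord v c))
      fun v => ⟨fun h => (mem_filter.1 h).2, fun h1 => mem_filter.2 ⟨by_contra fun h2 => h1
        (by rw [(hW0 v h2).1, (hW0 v h2).2.1, (hW0 v h2).2.2]; exact ⟨rfl, rfl⟩), h1⟩⟩,
      ← sum_union hd]
    refine sum_le_sum_of_subset_of_nonneg (fun v hv => ?_) fun v _ _ => (wt_pos v).le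
    rcases mem_union.1 hv with h1 | h1
    · exact mem_filter.2 ⟨(mem_filter.1 h1).1, fun h2 => (mem_filter.1 h1).2 (h2.1.trans h2.2)⟩
    · exact mem_filter.2 ⟨(mem_filter.1 h1).1, fun h2 => (mem_filter.1 h1).2.ne' h2.2⟩
  · rw [ht_congr (U := W) (fun v hv => (hS v hv).ge) fun v hv => by
      rw [hox, (hW0 v hv).1, (hW0 v hv).2.2, sub_self]]
    set I := FractionalIdeal.spanSingleton (𝓞 K)⁰ a + FractionalIdeal.spanSingleton (𝓞 K)⁰ b +
      FractionalIdeal.spanSingleton (𝓞 K)⁰ c with hI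
    have n1 := FractionalIdeal.spanSingleton_ne_zero_iff (S := (𝓞 K)⁰).2 ha
    have n2 := FractionalIdeal.spanSingleton_ne_zero_iff (S := (𝓞 K)⁰).2 hb
    have n3 := FractionalIdeal.spanSingleton_ne_zero_iff (S := (𝓞 K)⁰).2 hc
    have hcnt : ∀ v : Pr K, I ≠ 0 ∧ min (ord v a) (ord v c) ≤ FractionalIdeal.count K v I :=
      fun v => by
      have := count_add_ge v n1 n2 (min_le_left (ord v a) (ord v c)) (hmin v)
      exact count_add_ge v this.1 n3 this.2 (min_le_right _ _)
    have hle : FractionalIdeal.spanSingleton (𝓞 K)⁰ c ≤ I := le_sup_right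
    have hI0 : I ≠ 0 := fun h => n3 (FractionalIdeal.le_zero_iff.1 (hle.trans_eq h))
    have hlog := log_absNorm hI0 W fun v hv => le_antisymm
      ((FractionalIdeal.count_mono K v n3 hle).trans_eq (hW0 v hv).2.2) (by
        have := (hcnt v).2
        rwa [(hW0 v hv).1, (hW0 v hv).2.2, min_self] at this)
    have hN : (0 : ℝ) < ((FractionalIdeal.absNorm I : ℚ) : ℝ) := by
      have h1 := FractionalIdeal.absNorm_nonneg I
      have h2 : FractionalIdeal.absNorm I ≠ 0 := fun h =>
        hI0 (FractionalIdeal.absNorm_eq_zero_iff.1 h)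
      exact_mod_cast lt_of_le_of_ne h1 h2.symm
    have hp : ∀ τ : K →+* ℂ, 0 < max (max ‖τ a‖ ‖τ b‖) ‖τ c‖ := fun τ =>
      lt_max_of_lt_right (norm_pos_iff.2 ((map_ne_zero τ).2 hc))
    have h1 := one_le_dg (K := K)
    have e1 : dg K * Real.log (Hgt a b c) = -Real.log ((FractionalIdeal.absNorm I : ℚ) : ℝ) +
        ∑ w : InfinitePlace K, mu w * Real.log (max (max (w a) (w b)) (w c)) := by
      unfold dg at h1
      rw [Hgt, finprod_eq_prod_of_fintype, ← hI,
        Real.log_rpow (mul_pos (inv_pos.2 hN) (prod_pos fun τ _ => hp τ)),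
        Real.log_mul (inv_pos.2 hN).ne' (prod_pos fun τ _ => hp τ).ne', Real.log_inv,
        Real.log_prod fun τ _ => (hp τ).ne', ← sum_emb, dg]
      simp only [InfinitePlace.apply]
      field_simp
    have e2 : ∀ w : InfinitePlace K, Real.log (max (max (w a) (w b)) (w c)) ≤
        la w c + max (la w (-a / c)) 0 + 1 := fun w => by
      have pc : 0 < w c := InfinitePlace.pos_iff.2 hc
      have q : ∀ y : K, y ≠ 0 → w y = Real.exp (la w c + la w (y / c)) := fun y hy => by
        rw [Real.exp_add, la, la, Real.exp_log pc,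
          Real.exp_log (InfinitePlace.pos_iff.2 (div_ne_zero hy hc)), map_div₀]
        field_simp
      have q1 := le_max_left (la w (-a / c)) 0
      have q2 := le_max_right (la w (-a / c)) 0
      have q3 := (max_la_sub w (-a / c)).1
      have q4 := le_max_left (la w (-a / c - 1)) 0
      rw [hx1] at q3 q4
      rw [Real.log_le_iff_le_exp (lt_max_of_lt_right pc)]
      refine max_le (max_le ?_ ?_) ?_
      · have q5 : w a = w (-a) := (w.1.map_neg a).symm
        rw [q5, q _ (neg_ne_zero.2 ha), Real.exp_le_exp]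
        linarith
      · rw [q _ hb, Real.exp_le_exp]
        linarith
      · rw [← Real.log_le_iff_le_exp pc]
        unfold la at q2 ⊢
        linarith
    have e3 : ∑ w : InfinitePlace K, mu w * Real.log (max (max (w a) (w b)) (w c)) ≤
        ∑ w : InfinitePlace K, (mu w * la w c + mu w * max (la w (-a / c)) 0 + mu w) :=
      sum_le_sum fun w _ => by nlinarith [e2 w, one_le_mu w]
    rw [sum_add_distrib, sum_add_distrib, sum_mu, prod_formula hc W fun v hv => (hW0 v hv).2.2]
      at e3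
    have e4 : ∑ v ∈ W, (ord v c : ℝ) * wt v ≤
        ∑ v ∈ W, ((FractionalIdeal.count K v I : ℝ) * wt v +
          max (-(ord v (-a / c) : ℝ)) 0 * wt v) := sum_le_sum fun v _ => by
      rw [← add_mul]
      refine mul_le_mul_of_nonneg_right ?_ (wt_pos v).le
      have h2 : ((min (ord v a) (ord v c) : ℤ) : ℝ) ≤ FractionalIdeal.count K v I := by
        exact_mod_cast (hcnt v).2
      rw [hox]
      push_cast at h2 ⊢
      rcases min_le_iff.1 h2 with h3 | h3
      · linarith [le_max_left (-((ord v a : ℝ) - ord v c)) 0]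
      · linarith [le_max_right (-((ord v a : ℝ) - ord v c)) 0]
    rw [sum_add_distrib] at e4
    unfold ht
    linarith

end Pool.Agent.P.MP_6e34ef_nt.NF
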