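import Pool.Agent.P.MP_6e34ef_nt.NF.Ord

/-! The height of a multiple root of an integer polynomial. -/

set_option autoImplicit false

namespace Pool.Agent.P.MP_6e34ef_nt.NF

open Finset NumberField IsDedekindDomain
open scoped nonZeroDivisors

variable {K : Type} [Field K] [NumberField K]

open Polynomial in
theorem hgt_step (v : Pr K) {x : K} (hx : ord v x < 0) (Q : K[X]) (g : ℝ)
    (h : ∀ i, Ge v (((X - C x) * Q).coeff i) g) (i : ℕ) : Ge v (Q.coeff i) (g - ord v x) := by
  have hx0 : x ≠ 0 := by
    rintro rfl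
    simp [ord, FractionalIdeal.count_zero] at hx
  have hi : Ge v x⁻¹ (-(ord v x : ℝ)) := Or.inr (by rw [ord_inv]; simp)
  have hx' : (ord v x : ℝ) < 0 := by exact_mod_cast hx
  induction i with
  | zero =>
    have h1 := (h 0).neg.mul hi
    rw [sub_mul, coeff_sub, coeff_X_mul_zero, coeff_C_mul, zero_sub, neg_neg, mul_comm x,
      mul_inv_cancel_right₀ hx0] at h1
    exact h1
  | succ i ih =>
    have h1 := ((ih.mono (by linarith)).sub (h (i + 1))).mul hi
    rw [sub_mul X, coeff_sub, coeff_X_mul, coeff_C_mul, sub_sub_cancel, mul_comm x,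
      mul_inv_cancel_right₀ hx0] at h1
    exact h1

open Polynomial in
theorem hgt_pow (v : Pr K) {x : K} (hx : ord v x < 0) (e : ℕ) (Q : K[X]) (g : ℝ)
    (h : ∀ i, Ge v (((X - C x) ^ e * Q).coeff i) g) (i : ℕ) :
    Ge v (Q.coeff i) (g - e * ord v x) := by
  induction e generalizing g with
  | zero => simpa using h i
  | succ e ih =>
    rw [pow_succ', mul_assoc] at h
    have := ih _ (hgt_step v hx _ g h)
    refine this.mono (le_of_eq ?_)
    push_cast
    ring

open Polynomial in
theorem ht_root (S : Finset (Pr K)) {x : K} (R : ℤ[X]) (hR : R ≠ 0) (e : ℕ)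
    (h : (X - C x) ^ e ∣ R.map (Int.castRingHom K)) :
    e * ht S x ≤ dg K * Real.log (R.sum fun _ c => |(c : ℝ)|) := by
  obtain ⟨Q, hQ⟩ := h
  have hinj : Function.Injective (Int.castRingHom K) := Int.cast_injective
  have hR' : R.map (Int.castRingHom K) ≠ 0 := (Polynomial.map_ne_zero_iff hinj).2 hR
  have hQ0 : Q ≠ 0 := fun h0 => hR' (by rw [hQ, h0, mul_zero])
  have hl : Q.leadingCoeff ≠ 0 := leadingCoeff_ne_zero.2 hQ0
  have hlead : Q.leadingCoeff = (R.leadingCoeff : K) := by
    have := congrArg leadingCoeff hQ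
    rw [leadingCoeff_map_of_injective hinj, leadingCoeff_mul,
      ((monic_X_sub_C x).pow e).leadingCoeff, one_mul] at this
    exact this.symm
  have hc : ∀ (v : Pr K) i, Ge v (((X - C x) ^ e * Q).coeff i) 0 := fun v i => by
    rw [← hQ, coeff_map]
    exact Ge.intCast v _
  have h1 := liouville hl S (fun v => e * max (-(ord v x : ℝ)) 0)
    (fun w => Real.log (R.sum fun _ c => |(c : ℝ)|) - e * max (la w x) 0) (fun v _ => by
      rcases lt_or_ge (ord v x) 0 with h2 | h2
      · have h3 : (ord v x : ℝ) < 0 := by exact_mod_cast h2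
        rw [max_eq_left (by linarith)]
        exact (hgt_pow v h2 e Q 0 (hc v) Q.natDegree).mono (le_of_eq (by ring))
      · have h3 : (0 : ℝ) ≤ ord v x := by exact_mod_cast h2
        rw [max_eq_right (by linarith), mul_zero, hlead]
        exact Ge.intCast v _) (fun v _ => hlead ▸ Ge.intCast v _) fun w => by
      have h2 := congrArg (fun P : K[X] => (P.map w.embedding).mahlerMeasure) hQ
      simp only [Polynomial.map_mul, Polynomial.map_pow, Polynomial.map_sub, map_X, map_C,
        mahlerMeasure_mul, Polynomial.map_map] at h2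
      have h3 : ∀ n : ℕ, ((X - C (w.embedding x)) ^ n).mahlerMeasure =
          max 1 ‖w.embedding x‖ ^ n := fun n => by
        induction n with
        | zero => simp
        | succ n ih => rw [pow_succ, mahlerMeasure_mul, ih, mahlerMeasure_X_sub_C, pow_succ]
      have h4 := leadingCoeff_le_mahlerMeasure (Q.map w.embedding)
      rw [leadingCoeff_map, w.norm_embedding_eq] at h4
      have h5 := mahlerMeasure_le_sum_norm_coeff (R.map (w.embedding.comp (Int.castRingHom K)))
      have h6 : ((R.map (w.embedding.comp (Int.castRingHom K))).sum fun _ a => ‖a‖) =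
          R.sum fun _ c => |(c : ℝ)| := by
        rw [Polynomial.sum_def, Polynomial.sum_def,
          support_map_of_injective _ (w.embedding.comp (Int.castRingHom K)).injective_int]
        exact sum_congr rfl fun i _ => by simp
      rw [h6, h2, h3, w.norm_embedding_eq] at h5
      have h7 : 0 < w Q.leadingCoeff := InfinitePlace.pos_iff.2 hl
      have h8 : (0 : ℝ) < max 1 (w x) := lt_max_of_lt_left one_pos
      have h9 : max (la w x) 0 ≤ Real.log (max 1 (w x)) := by
        refine max_le ?_ (Real.log_nonneg (le_max_left _ _))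
        rcases (apply_nonneg w x).eq_or_lt with h0 | h0
        · rw [la, ← h0, Real.log_zero]; exact Real.log_nonneg (le_max_left _ _)
        · exact Real.log_le_log h0 (le_max_right _ _)
      have h10 := Real.log_le_log (mul_pos (pow_pos h8 e) h7)
        ((mul_le_mul_of_nonneg_left h4 (pow_pos h8 e).le).trans h5)
      rw [Real.log_mul (pow_pos h8 e).ne' h7.ne', Real.log_pow] at h10
      have h11 := mul_le_mul_of_nonneg_left h9 (Nat.cast_nonneg (α := ℝ) e)
      unfold la at h11 ⊢
      linarith
  simp only [mul_sub, sum_sub_distrib, ← sum_mul, sum_mu, mul_left_comm _ (e : ℝ), mul_assoc,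
    ← mul_sum] at h1
  unfold ht
  linarith

open Polynomial in
/-- divisibility descends along an embedding -/
theorem dvd_of_emb (φ : K →+* ℂ) {x : K} (R : ℤ[X]) (e : ℕ)
    (h : (X - C (φ x)) ^ e ∣ R.map (Int.castRingHom ℂ)) :
    (X - C x) ^ e ∣ R.map (Int.castRingHom K) := by
  rw [← map_dvd_map' φ, Polynomial.map_pow, Polynomial.map_sub, map_X, map_C, Polynomial.map_map]
  rwa [RingHom.ext_int (φ.comp (Int.castRingHom K)) (Int.castRingHom ℂ)]

end Pool.Agent.P.MP_6e34ef_nt.NF
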