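import Mathlib

/-! Orders, logarithmic absolute values, the product formula and heights in a number field. -/

set_option autoImplicit false

namespace Pool.Agent.P.MP_6e34ef_nt.NF

open Finset NumberField IsDedekindDomain
open scoped nonZeroDivisors

/-- The finite primes. -/
abbrev Pr (K : Type) [Field K] : Type := HeightOneSpectrum (𝓞 K)

variable {K : Type} [Field K] [NumberField K]

/-- The order of `x` at `v`. -/
noncomputable def ord (v : Pr K) (x : K) : ℤ :=
  FractionalIdeal.count K v (FractionalIdeal.spanSingleton (𝓞 K)⁰ x)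

/-- The logarithm of the norm of a prime. -/
noncomputable def wt (v : Pr K) : ℝ := Real.log (Ideal.absNorm v.asIdeal : ℝ)

/-- The logarithmic absolute value at an infinite place. -/
noncomputable def la (w : InfinitePlace K) (x : K) : ℝ := Real.log (w x)

/-- The multiplicity of an infinite place. -/
noncomputable def mu (w : InfinitePlace K) : ℝ := w.mult

/-- The degree. -/
noncomputable def dg (K : Type) [Field K] [NumberField K] : ℝ := Module.finrank ℚ K

/-- The logarithm of the discriminant. -/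
noncomputable def lD (K : Type) [Field K] [NumberField K] : ℝ := Real.log |(discr K : ℝ)|

/-- `x` vanishes or has order at least `r` at `v`. -/
def Ge (v : Pr K) (x : K) (r : ℝ) : Prop := x = 0 ∨ r ≤ ord v x

/-- The relative logarithmic height, when `S` contains the poles of `x`. -/
noncomputable def ht (S : Finset (Pr K)) (x : K) : ℝ :=
  ∑ w : InfinitePlace K, mu w * max (la w x) 0 + ∑ v ∈ S, max (-(ord v x : ℝ)) 0 * wt v

theorem wt_pos (v : Pr K) : 0 < wt v := by
  have h : 1 < Ideal.absNorm v.asIdeal := HeightOneSpectrum.one_lt_absNorm v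
  exact Real.log_pos (by exact_mod_cast h)

theorem one_le_mu (w : InfinitePlace K) : 1 ≤ mu w := by
  exact InfinitePlace.one_le_mult

theorem sum_mu : ∑ w : InfinitePlace K, mu w = dg K := by
  unfold mu dg
  exact_mod_cast InfinitePlace.sum_mult_eq (K := K)

theorem one_le_dg : 1 ≤ dg K := by
  unfold dg
  exact_mod_cast Module.finrank_pos (R := ℚ) (M := K)

theorem lD_nonneg : 0 ≤ lD K := by
  refine Real.log_nonneg ?_
  have := Int.one_le_abs (discr_ne_zero K)
  exact_mod_cast this

theorem dg_le_lD : dg K ≤ 2 * lD K + 2 := by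
  have h0 := lD_nonneg (K := K)
  by_cases h : 1 < Module.finrank ℚ K
  · have h1 := abs_discr_ge h
    have h2 : (2 : ℝ) ≤ 3 * Real.pi / 4 := by linarith [Real.pi_gt_three]
    have h3 : (4 / 9 : ℝ) * 2 ^ Module.finrank ℚ K ≤ |(discr K : ℝ)| := by
      refine le_trans ?_ (by exact_mod_cast h1)
      gcongr
    have h4 := Real.log_le_log (by positivity) h3
    rw [Real.log_mul (by norm_num) (by positivity), Real.log_pow] at h4
    have h5 : (1 / 2 : ℝ) ≤ Real.log 2 := by linarith [Real.log_two_gt_d9]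
    have h6 : -1 ≤ Real.log (4 / 9 : ℝ) := by
      rw [Real.le_log_iff_exp_le (by norm_num), Real.exp_neg, inv_le_comm₀ (Real.exp_pos _)
        (by norm_num)]
      linarith [Real.exp_one_gt_d9]
    have h7 : (0 : ℝ) ≤ Module.finrank ℚ K := Nat.cast_nonneg _
    unfold dg lD
    nlinarith
  · have : dg K ≤ 1 := by unfold dg; exact_mod_cast not_lt.1 h
    linarith

theorem ord_one (v : Pr K) : ord v 1 = 0 := by
  rw [ord, FractionalIdeal.spanSingleton_one, FractionalIdeal.count_one]

theorem ord_mul (v : Pr K) {x y : K} (hx : x ≠ 0) (hy : y ≠ 0) :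
    ord v (x * y) = ord v x + ord v y := by
  rw [ord, ← FractionalIdeal.spanSingleton_mul_spanSingleton, FractionalIdeal.count_mul K v
    (FractionalIdeal.spanSingleton_ne_zero_iff.2 hx) (FractionalIdeal.spanSingleton_ne_zero_iff.2 hy)]
  rfl

theorem ord_pow (v : Pr K) (x : K) (n : ℕ) : ord v (x ^ n) = n * ord v x := by
  rw [ord, ← FractionalIdeal.spanSingleton_pow, FractionalIdeal.count_pow]
  rfl

theorem ord_inv (v : Pr K) (x : K) : ord v x⁻¹ = -ord v x := by
  rw [ord, ← FractionalIdeal.spanSingleton_inv, FractionalIdeal.count_inv]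
  rfl

theorem ord_div (v : Pr K) {x y : K} (hx : x ≠ 0) (hy : y ≠ 0) :
    ord v (x / y) = ord v x - ord v y := by
  rw [div_eq_mul_inv, ord_mul v hx (inv_ne_zero hy), ord_inv, sub_eq_add_neg]

theorem ord_neg (v : Pr K) (x : K) : ord v (-x) = ord v x := by
  have : FractionalIdeal.spanSingleton (𝓞 K)⁰ (-x) = FractionalIdeal.spanSingleton (𝓞 K)⁰ x :=
    FractionalIdeal.spanSingleton_eq_spanSingleton.2 ⟨-1, by simp⟩
  rw [ord, this, ord]

theorem ord_prod {ι : Type*} (v : Pr K) (s : Finset ι) {f : ι → K} (hf : ∀ i ∈ s, f i ≠ 0) :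
    ord v (∏ i ∈ s, f i) = ∑ i ∈ s, ord v (f i) := by
  classical
  induction s using Finset.induction_on with
  | empty => simp [ord_one]
  | insert i s hi ih =>
    rw [prod_insert hi, sum_insert hi, ord_mul v (hf i (mem_insert_self _ _))
      (prod_ne_zero_iff.2 fun j hj => hf j (mem_insert_of_mem hj)),
      ih fun j hj => hf j (mem_insert_of_mem hj)]

theorem val_eq_int (v : Pr K) {x : 𝓞 K} (hx : x ≠ 0) :
    v.intValuation x = WithZero.exp (-ord v (algebraMap (𝓞 K) K x)) := by
  classical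
  rw [v.intValuation_if_neg hx, ord, ← FractionalIdeal.coeIdeal_span_singleton,
    FractionalIdeal.count_coe K v (by simpa using hx)]

theorem val_eq (v : Pr K) {x : K} (hx : x ≠ 0) : v.valuation K x = WithZero.exp (-ord v x) := by
  obtain ⟨⟨r, s⟩, rfl⟩ := IsLocalization.mk'_surjective (𝓞 K)⁰ x
  have hs : (s : 𝓞 K) ≠ 0 := nonZeroDivisors.coe_ne_zero s
  have hr : r ≠ 0 := by
    rintro rfl
    simp at hx
  simp only
  rw [v.valuation_of_mk', val_eq_int v hr, val_eq_int v hs, IsFractionRing.mk'_eq_div,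
    ord_div v (by simpa using hr) (by simpa using hs), ← WithZero.exp_sub]
  congr 1
  ring

theorem ord_add (v : Pr K) {x y : K} (hx : x ≠ 0) (hy : y ≠ 0) (h : x + y ≠ 0) :
    min (ord v x) (ord v y) ≤ ord v (x + y) := by
  have := (v.valuation K).map_add x y
  rw [val_eq v hx, val_eq v hy, val_eq v h, le_max_iff, WithZero.exp_le_exp,
    WithZero.exp_le_exp] at this
  omega

theorem ord_add_of_lt (v : Pr K) {x y : K} (hx : x ≠ 0) (hy : y ≠ 0) (h : ord v x < ord v y) :
    ord v (x + y) = ord v x := by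
  have hxy : x + y ≠ 0 := fun h0 => by
    rw [eq_neg_of_add_eq_zero_left h0, ord_neg] at h
    exact lt_irrefl _ h
  have h1 := ord_add v hx hy hxy
  have h2 := ord_add v hxy (neg_ne_zero.2 hy) (by simpa using hx)
  rw [add_neg_cancel_right, ord_neg] at h2
  omega

theorem ord_coe_nonneg (v : Pr K) (x : 𝓞 K) : 0 ≤ ord v (x : K) := by
  have := FractionalIdeal.count_coe_nonneg K v (Ideal.span {x})
  rwa [FractionalIdeal.coeIdeal_span_singleton] at this

namespace Ge

variable {v : Pr K} {x y : K} {r s : ℝ}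

theorem zero (v : Pr K) (r : ℝ) : Ge v 0 r := Or.inl rfl

theorem self (v : Pr K) (x : K) : Ge v x (ord v x) := Or.inr le_rfl

theorem le (h : Ge v x r) (hx : x ≠ 0) : r ≤ ord v x := h.resolve_left hx

theorem mono (h : Ge v x r) (hs : s ≤ r) : Ge v x s := h.imp id hs.trans

theorem add (hx : Ge v x r) (hy : Ge v y r) : Ge v (x + y) r := by
  by_cases h1 : x = 0
  · rwa [h1, zero_add]
  by_cases h2 : y = 0
  · rwa [h2, add_zero]
  by_cases h3 : x + y = 0
  · exact Or.inl h3
  have h : ((min (ord v x) (ord v y) : ℤ) : ℝ) ≤ ord v (x + y) := by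
    exact_mod_cast ord_add v h1 h2 h3
  push_cast at h
  exact Or.inr ((le_min (hx.le h1) (hy.le h2)).trans h)

theorem neg (hx : Ge v x r) : Ge v (-x) r := by
  rcases hx with h | h
  · exact Or.inl (by rw [h, neg_zero])
  · exact Or.inr (by rwa [ord_neg])

theorem sub (hx : Ge v x r) (hy : Ge v y r) : Ge v (x - y) r := by
  rw [sub_eq_add_neg]
  exact hx.add hy.neg

theorem mul (hx : Ge v x r) (hy : Ge v y s) : Ge v (x * y) (r + s) := by
  by_cases h1 : x = 0
  · exact Or.inl (by rw [h1, zero_mul])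
  by_cases h2 : y = 0
  · exact Or.inl (by rw [h2, mul_zero])
  refine Or.inr ?_
  rw [ord_mul v h1 h2, Int.cast_add]
  exact add_le_add (hx.le h1) (hy.le h2)

theorem pow (hx : Ge v x r) (n : ℕ) : Ge v (x ^ n) (n * r) := by
  induction n with
  | zero => exact Or.inr (by simp [ord_one])
  | succ n ih =>
    rw [pow_succ, Nat.cast_succ, add_mul, one_mul]
    exact ih.mul hx

theorem intCast (v : Pr K) (c : ℤ) : Ge v (c : K) 0 := by
  have := ord_coe_nonneg v (c : 𝓞 K)
  refine Or.inr ?_
  have e : (((c : 𝓞 K)) : K) = c := by simp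
  rw [e] at this
  exact_mod_cast this

theorem natCast (v : Pr K) (c : ℕ) : Ge v (c : K) 0 := by
  simpa using intCast v (c : ℤ)

theorem sum {ι : Type*} {t : Finset ι} {f : ι → K} (h : ∀ i ∈ t, Ge v (f i) r) :
    Ge v (∑ i ∈ t, f i) r := by
  exact Finset.sum_induction f (fun z => Ge v z r) (fun _ _ => add) (zero v r) h

theorem prod {ι : Type*} {t : Finset ι} {f : ι → K} {g : ι → ℝ} (h : ∀ i ∈ t, Ge v (f i) (g i)) :
    Ge v (∏ i ∈ t, f i) (∑ i ∈ t, g i) := by
  classical
  induction t using Finset.induction_on with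
  | empty => exact Or.inr (by simp [ord_one])
  | insert i s hi ih =>
    rw [prod_insert hi, sum_insert hi]
    exact (h i (mem_insert_self _ _)).mul (ih fun j hj => h j (mem_insert_of_mem hj))

end Ge

theorem exists_supp' (I : FractionalIdeal (𝓞 K)⁰ K) :
    ∃ S : Finset (Pr K), ∀ v, v ∉ S → FractionalIdeal.count K v I = 0 := by
  have h := FractionalIdeal.finite_factors I
  rw [Filter.eventually_cofinite] at h
  exact ⟨h.toFinset, fun v hv => by simpa using hv⟩

theorem eq_prod {I : FractionalIdeal (𝓞 K)⁰ K} (hI : I ≠ 0) (S : Finset (Pr K))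
    (hS : ∀ v, v ∉ S → FractionalIdeal.count K v I = 0) :
    I = ∏ v ∈ S, (v.asIdeal : FractionalIdeal (𝓞 K)⁰ K) ^ FractionalIdeal.count K v I := by
  conv_lhs => rw [← FractionalIdeal.finprod_heightOneSpectrum_factorization' K hI]
  refine finprod_eq_prod_of_mulSupport_subset _ fun v hv => ?_
  by_contra h
  exact hv (by simp only [hS v h, zpow_zero])

theorem exists_supp (x : K) : ∃ S : Finset (Pr K), ∀ v, v ∉ S → ord v x = 0 := by
  exact exists_supp' _

theorem le_of_count {I J : FractionalIdeal (𝓞 K)⁰ K} (hI : I ≠ 0) (hJ : J ≠ 0)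
    (h : ∀ v : Pr K, FractionalIdeal.count K v J ≤ FractionalIdeal.count K v I) : I ≤ J := by
  have h0 : J⁻¹ * I ≠ 0 := mul_ne_zero (inv_ne_zero hJ) hI
  obtain ⟨S, hS⟩ := exists_supp' (J⁻¹ * I)
  have h1 : J⁻¹ * I ≤ 1 := by
    rw [eq_prod h0 S hS]
    refine Finset.prod_induction _ (fun L => L ≤ 1) (fun a b ha hb => ?_) le_rfl fun v _ => ?_
    · exact (mul_le_mul' ha hb).trans_eq (one_mul 1)
    · have h2 : 0 ≤ FractionalIdeal.count K v (J⁻¹ * I) := by
        rw [FractionalIdeal.count_mul K v (inv_ne_zero hJ) hI, FractionalIdeal.count_inv]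
        linarith [h v]
      obtain ⟨n, hn⟩ := Int.eq_ofNat_of_zero_le h2
      rw [hn, zpow_natCast, ← FractionalIdeal.coeIdeal_pow]
      exact FractionalIdeal.coeIdeal_le_one
  have := mul_le_mul_right h1 J
  rwa [mul_inv_cancel_left₀ hJ, mul_one] at this

theorem log_absNorm {I : FractionalIdeal (𝓞 K)⁰ K} (hI : I ≠ 0) (S : Finset (Pr K))
    (hS : ∀ v, v ∉ S → FractionalIdeal.count K v I = 0) :
    Real.log ((FractionalIdeal.absNorm I : ℚ) : ℝ) =
      ∑ v ∈ S, (FractionalIdeal.count K v I : ℝ) * wt v := by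
  conv_lhs => rw [eq_prod hI S hS]
  have hp : ∀ v : Pr K, (0 : ℝ) < Ideal.absNorm v.asIdeal := fun v => by
    have h : 1 < Ideal.absNorm v.asIdeal := HeightOneSpectrum.one_lt_absNorm v
    exact_mod_cast h.trans' one_pos
  rw [map_prod]
  simp only [map_zpow₀, FractionalIdeal.coeIdeal_absNorm]
  push_cast
  rw [Real.log_prod fun v _ => (zpow_pos (hp v) _).ne']
  exact sum_congr rfl fun v _ => by rw [Real.log_zpow, wt]

/-- The product formula. -/
theorem prod_formula {x : K} (hx : x ≠ 0) (S : Finset (Pr K)) (hS : ∀ v, v ∉ S → ord v x = 0) :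
    ∑ w : InfinitePlace K, mu w * la w x = ∑ v ∈ S, (ord v x : ℝ) * wt v := by
  have h1 := log_absNorm (FractionalIdeal.spanSingleton_ne_zero_iff.2 hx) S hS
  rw [FractionalIdeal.absNorm_span_singleton, ← InfinitePlace.prod_eq_abs_norm,
    Real.log_prod fun w _ => (pow_pos (InfinitePlace.pos_iff.2 hx) _).ne'] at h1
  refine Eq.trans (sum_congr rfl fun w _ => ?_) h1
  rw [Real.log_pow, mu, la]

/-- The inequality of Liouville. -/
theorem liouville {x : K} (hx : x ≠ 0) (U : Finset (Pr K)) (g : Pr K → ℝ)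
    (f : InfinitePlace K → ℝ) (hg : ∀ v ∈ U, Ge v x (g v)) (h0 : ∀ v, v ∉ U → Ge v x 0)
    (hf : ∀ w, la w x ≤ f w) :
    ∑ v ∈ U, g v * wt v ≤ ∑ w : InfinitePlace K, mu w * f w := by
  classical
  obtain ⟨S, hS⟩ := exists_supp x
  have h1 := prod_formula hx (U ∪ S) fun v hv => hS v fun h => hv (mem_union_right _ h)
  calc ∑ v ∈ U, g v * wt v ≤ ∑ v ∈ U, (ord v x : ℝ) * wt v :=
        sum_le_sum fun v hv => mul_le_mul_of_nonneg_right ((hg v hv).le hx) (wt_pos v).le
    _ ≤ ∑ v ∈ U ∪ S, (ord v x : ℝ) * wt v :=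
        sum_le_sum_of_subset_of_nonneg subset_union_left fun v _ hv =>
          mul_nonneg ((h0 v hv).le hx) (wt_pos v).le
    _ ≤ _ := by
        rw [← h1]
        exact sum_le_sum fun w _ =>
          mul_le_mul_of_nonneg_left (hf w) (zero_le_one.trans (one_le_mu w))

theorem ht_nonneg (S : Finset (Pr K)) (x : K) : 0 ≤ ht S x := by
  exact add_nonneg (sum_nonneg fun w _ =>
    mul_nonneg (zero_le_one.trans (one_le_mu w)) (le_max_right _ _))
    (sum_nonneg fun v _ => mul_nonneg (le_max_right _ _) (wt_pos v).le)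

theorem ht_congr {S U : Finset (Pr K)} {x : K} (hS : ∀ v, v ∉ S → 0 ≤ ord v x)
    (hU : ∀ v, v ∉ U → 0 ≤ ord v x) : ht S x = ht U x := by
  classical
  have key : ∀ {A B : Finset (Pr K)}, (∀ v, v ∉ A → 0 ≤ ord v x) →
      ∑ v ∈ A, max (-(ord v x : ℝ)) 0 * wt v = ∑ v ∈ A ∪ B, max (-(ord v x : ℝ)) 0 * wt v :=
    fun {A B} hA => sum_subset subset_union_left fun v _ hv => by
      have : (0 : ℝ) ≤ ord v x := by exact_mod_cast hA v hv
      rw [max_eq_right (by linarith), zero_mul]
  unfold ht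
  rw [key (B := U) hS, key (B := S) hU, union_comm]

/-- The height counted through zeros. -/
theorem ht_eq_zeros {S : Finset (Pr K)} {x : K} (hx : x ≠ 0) (hS : ∀ v, v ∉ S → ord v x = 0) :
    ht S x = ∑ w : InfinitePlace K, mu w * max (-la w x) 0 +
      ∑ v ∈ S, max (ord v x : ℝ) 0 * wt v := by
  have h := prod_formula hx S hS
  have e : ∀ a : ℝ, max a 0 = a + max (-a) 0 := fun a => by
    rcases le_total a 0 with h | h
    · rw [max_eq_right h, max_eq_left (by linarith)]; ring
    · rw [max_eq_left h, max_eq_right (by linarith)]; ring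
  unfold ht
  simp only [e (la _ x), e (ord _ x : ℝ), mul_add, add_mul, sum_add_distrib]
  linarith

theorem max_la_le (w : InfinitePlace K) {x y : K} (h : w y ≤ w x + 1) :
    max (la w y) 0 ≤ max (la w x) 0 + 1 := by
  have h0 := le_max_right (la w x) 0
  refine max_le ?_ (by linarith)
  have h1 : w x ≤ Real.exp (max (la w x) 0) := (Real.le_exp_log _).trans
    (Real.exp_le_exp.2 (le_max_left _ _))
  have h2 : 1 ≤ Real.exp (max (la w x) 0) := Real.one_le_exp h0
  have h3 : w y ≤ Real.exp (max (la w x) 0 + 1) := by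
    rw [Real.exp_add]
    nlinarith [Real.exp_one_gt_d9]
  rcases (apply_nonneg w y).eq_or_lt with h4 | h4
  · rw [la, ← h4, Real.log_zero]; linarith
  · exact (Real.log_le_iff_le_exp h4).2 h3

theorem max_la_sub (w : InfinitePlace K) (x : K) :
    max (la w (x - 1)) 0 ≤ max (la w x) 0 + 1 ∧ max (la w x) 0 ≤ max (la w (x - 1)) 0 + 1 := by
  refine ⟨max_la_le w ?_, max_la_le w ?_⟩
  · have := w.1.add_le x (-1)
    rwa [← sub_eq_add_neg, AbsoluteValue.map_neg, map_one] at this
  · have := w.1.add_le (x - 1) 1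
    rwa [sub_add_cancel, map_one] at this

theorem max_neg_eq (a : ℝ) : max (-a) 0 = max a 0 - a := by
  rcases le_total a 0 with h | h
  · rw [max_eq_right h, max_eq_left (by linarith)]; ring
  · rw [max_eq_left h, max_eq_right (by linarith)]; ring

/-- The proximity of `x` to `1` is at most the height. -/
theorem prox_le {S T : Finset (Pr K)} {x : K} (hx0 : x ≠ 0) (hx1 : x ≠ 1)
    (hS : ∀ v, v ∉ S → ord v x = 0) (hd : Disjoint S T) :
    ∑ v ∈ T, (ord v (x - 1) : ℝ) * wt v + ∑ w : InfinitePlace K, mu w * max (-la w (x - 1)) 0 ≤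
      ht S x + dg K := by
  classical
  have h1 : x - 1 ≠ 0 := sub_ne_zero.2 hx1
  have hone : ∀ v : Pr K, Ge v (1 : K) 0 := fun v => by simpa using Ge.natCast v 1
  have h := liouville h1 (S ∪ T)
    (fun v => if v ∈ T then (ord v (x - 1) : ℝ) else -max (-(ord v x : ℝ)) 0)
    (fun w => la w (x - 1)) (fun v _ => by
      split_ifs
      · exact Ge.self v _
      · refine ((Ge.self v x).mono ?_).sub ((hone v).mono ?_)
        · linarith [le_max_left (-(ord v x : ℝ)) 0]
        · linarith [le_max_right (-(ord v x : ℝ)) 0])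
    (fun v hv => ((Ge.self v x).mono (by
      rw [hS v fun h => hv (mem_union_left _ h)]; simp)).sub (hone v)) fun _ => le_rfl
  rw [sum_union hd, sum_congr rfl (g := fun v => -(max (-(ord v x : ℝ)) 0 * wt v)) fun v hv => by
    rw [if_neg (disjoint_left.1 hd hv), neg_mul],
    sum_congr rfl (s₂ := T) (g := fun v => (ord v (x - 1) : ℝ) * wt v) fun v hv => by
      rw [if_pos hv], sum_neg_distrib] at h
  have h2 : ∑ w : InfinitePlace K, mu w * max (-la w (x - 1)) 0 ≤
      ∑ w : InfinitePlace K, (mu w * max (la w x) 0 + mu w - mu w * la w (x - 1)) :=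
    sum_le_sum fun w _ => by
      rw [max_neg_eq]
      nlinarith [(max_la_sub w x).1, one_le_mu w]
  rw [sum_sub_distrib, sum_add_distrib, sum_mu] at h2
  unfold ht
  linarith

/-- The total proximity of `x` to `1` is at least the height. -/
theorem prox_ge {S T : Finset (Pr K)} {x : K} (hx0 : x ≠ 0) (hx1 : x ≠ 1)
    (hS : ∀ v, v ∉ S → ord v x = 0) (hd : Disjoint S T) (hT : ∀ v, v ∉ T → ord v (x - 1) ≤ 0) :
    ht S x ≤ dg K + (∑ v ∈ T, (ord v (x - 1) : ℝ) * wt v +
      ∑ w : InfinitePlace K, mu w * max (-la w (x - 1)) 0) := by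
  classical
  have h1 : x - 1 ≠ 0 := sub_ne_zero.2 hx1
  obtain ⟨U, hU⟩ := exists_supp (x - 1)
  have h := prod_formula h1 (S ∪ T ∪ U) fun v hv => hU v fun h => hv (mem_union_right _ h)
  have h3 : ∑ v ∈ S ∪ T ∪ U, (ord v (x - 1) : ℝ) * wt v ≤
      ∑ v ∈ S ∪ T, (ord v (x - 1) : ℝ) * wt v := by
    rw [← sum_sdiff (subset_union_left (s₁ := S ∪ T) (s₂ := U))]
    refine add_le_of_nonpos_left (sum_nonpos fun v hv => ?_)
    have : (ord v (x - 1) : ℝ) ≤ 0 := by
      exact_mod_cast hT v fun h => (mem_sdiff.1 hv).2 (mem_union_right _ h)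
    exact mul_nonpos_of_nonpos_of_nonneg this (wt_pos v).le
  have h4 : ∑ v ∈ S, (ord v (x - 1) : ℝ) * wt v ≤ ∑ v ∈ S, -(max (-(ord v x : ℝ)) 0 * wt v) :=
    sum_le_sum fun v hv => by
      rw [← neg_mul]
      refine mul_le_mul_of_nonneg_right ?_ (wt_pos v).le
      have h5 : (ord v (x - 1) : ℝ) ≤ 0 := by exact_mod_cast hT v (disjoint_left.1 hd hv)
      rcases lt_or_ge (ord v x) 0 with h6 | h6
      · have h7 := ord_add_of_lt v hx0 (neg_ne_zero.2 one_ne_zero)
          (by rwa [ord_neg, ord_one])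
        rw [← sub_eq_add_neg] at h7
        have h8 : (ord v x : ℝ) < 0 := by exact_mod_cast h6
        rw [h7, max_eq_left (by linarith), neg_neg]
      · have h8 : (0 : ℝ) ≤ ord v x := by exact_mod_cast h6
        rw [max_eq_right (by linarith), neg_zero]
        exact h5
  rw [sum_union hd] at h3
  rw [sum_neg_distrib] at h4
  have h2 : ∑ w : InfinitePlace K, mu w * max (la w x) 0 ≤
      ∑ w : InfinitePlace K, (mu w * max (-la w (x - 1)) 0 + mu w + mu w * la w (x - 1)) :=
    sum_le_sum fun w _ => by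
      rw [max_neg_eq]
      nlinarith [(max_la_sub w x).2, one_le_mu w]
  rw [sum_add_distrib, sum_add_distrib, sum_mu] at h2
  unfold ht
  linarith

end Pool.Agent.P.MP_6e34ef_nt.NF
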